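import Pool.Agent.BSI.Stmts

/-!
BSI, row NUM: the numbers of one stage.
-/

namespace Pool.Agent.BSI.H28

open Pool.Agent.BSI

/-- **NUM** -/
theorem num : NumStmt := by
  intro r q s c hr h
  have hq : 5 ≤ q := by
    by_contra hlt
    have h4 : q ≤ 4 := by omega
    have : 2 * r * q ≤ 2 * r * 4 := Nat.mul_le_mul_left _ h4
    have h5 : 9 * r ≤ 2 * r * q := by
      have h0 : 0 ≤ 3 * s + 5 * r * c := Nat.zero_le _
      omega
    omega
  have hb : 32 ≤ 2 ^ q := by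
    calc 32 = 2 ^ 5 := by norm_num
      _ ≤ 2 ^ q := Nat.pow_le_pow_right (by norm_num) hq
  have h1 : (2 ^ q + 1) * 243 ≤ 2 ^ (q + 8) := by
    rw [pow_add]
    generalize 2 ^ q = b at hb
    norm_num
    omega
  have h2 : (2 ^ q + 1) ^ r * 3 ^ (4 * r + r) ≤ 2 ^ ((q + 8) * r) := by
    have e : (3 : ℕ) ^ (4 * r + r) = 243 ^ r := by
      have : 4 * r + r = 5 * r := by ring
      rw [this, pow_mul]
      norm_num
    rw [e, ← mul_pow, pow_mul]
    exact Nat.pow_le_pow_left h1 r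
  have h3 : 3 * s + 4 * r * c + r * c + (q + 8) * r < q * (4 * r + 1 - r) := by
    have e : 4 * r + 1 - r = 3 * r + 1 := by omega
    rw [e]
    nlinarith [h, hq, hr]
  calc 2 ^ (3 * s + 4 * r * c + r * c) * (2 ^ q + 1) ^ r * 3 ^ (4 * r + r)
      = 2 ^ (3 * s + 4 * r * c + r * c) * ((2 ^ q + 1) ^ r * 3 ^ (4 * r + r)) := by ring
    _ ≤ 2 ^ (3 * s + 4 * r * c + r * c) * 2 ^ ((q + 8) * r) := Nat.mul_le_mul_left _ h2
    _ = 2 ^ (3 * s + 4 * r * c + r * c + (q + 8) * r) := by rw [← pow_add]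
    _ < 2 ^ (q * (4 * r + 1 - r)) := Nat.pow_lt_pow_right (by norm_num) h3
    _ = (2 ^ q) ^ (4 * r + 1 - r) := by rw [pow_mul]

end Pool.Agent.BSI.H28
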